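import Pool.Agent.Q183.Games.Exact
import Pool.Agent.Q183.Games.Bernstein

/-!
# MP_decccb_lc: dimensions of winning and non-determined sets on binary subtrees

For every subtree `T` of the binary tree with `dim [T] > 1/2` and every `δ ∈ [1/2, dim [T]]`
there are subsets of `[T]` of Hausdorff dimension exactly `δ` that are non-determined, won by
Player I and won by Player II.
-/

open Set MeasureTheory Filter Cardinal
open scoped ENNReal NNReal Topology
open Pool.Agent.Q183.Games

namespace Pool.Agent.Results.MP_decccb_lc.ExactDimension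

/-- A subtree: a set of finite binary sequences that is closed under taking prefixes and in
which every sequence has a proper extension. -/
structure IsSubtree (T : Set (List Bool)) : Prop where
  prefix_closed : ∀ s ∈ T, ∀ t, t <+: s → t ∈ T
  extend : ∀ s ∈ T, ∃ t ∈ T, s <+: t ∧ s ≠ t

/-- The canopy `[T]`: the infinite sequences all of whose finite prefixes lie in `T`. -/
def canopy (T : Set (List Bool)) : Set Seq := {x | ∀ n, pre x n ∈ T}

/-- A strategy for the player who moves at the positions `n ≡ q (mod 2)`: it assigns to each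
position of `T` of such a length a move that stays in `T`. -/
def Legal (T : Set (List Bool)) (q : ℕ) (σ : List Bool → Bool) : Prop :=
  ∀ s ∈ T, s.length % 2 = q → s ++ [σ s] ∈ T

/-- The play `x` is consistent with the strategy `σ` of the player who moves at the positions
`n ≡ q (mod 2)`. -/
def Follows (q : ℕ) (σ : List Bool → Bool) (x : Seq) : Prop :=
  ∀ n, n % 2 = q → x n = σ (pre x n)

/-- Player I (who moves at even `n`) has a winning strategy in `(T, W)`. -/
def WinsI (T : Set (List Bool)) (W : Set Seq) : Prop :=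
  ∃ σ, Legal T 0 σ ∧ ∀ x ∈ canopy T, Follows 0 σ x → x ∈ W

/-- Player II (who moves at odd `n`) has a winning strategy in `(T, W)`. -/
def WinsII (T : Set (List Bool)) (W : Set Seq) : Prop :=
  ∃ τ, Legal T 1 τ ∧ ∀ x ∈ canopy T, Follows 1 τ x → x ∉ W

/-! ### Basics -/

lemma canopy_pclosed (T : Set (List Bool)) : PClosed (canopy T) := by
  intro x hx n
  obtain ⟨z, hz, h⟩ := hx n
  rw [← h]
  exact hz n

lemma exists_child {T : Set (List Bool)} (hT : IsSubtree T) :
    ∃ ch : List Bool → Bool, ∀ s ∈ T, s ++ [ch s] ∈ T := by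
  have : ∀ s : List Bool, ∃ b, s ∈ T → s ++ [b] ∈ T := by
    intro s
    by_cases hs : s ∈ T
    · obtain ⟨t, ht, ⟨r, hr⟩, hne⟩ := hT.extend s hs
      cases r with
      | nil => exact absurd (by simpa using hr) hne
      | cons b r =>
        refine ⟨b, fun _ => hT.prefix_closed t ht _ ⟨r, ?_⟩⟩
        rw [← hr]; simp
    · exact ⟨true, fun h => absurd h hs⟩
  choose ch hch using this
  exact ⟨ch, hch⟩

lemma canopy_of_step {T : Set (List Bool)} (hT : IsSubtree T) {x : Seq} {m : ℕ}
    (h0 : pre x m ∈ T) (h : ∀ n, m ≤ n → pre x n ∈ T → pre x (n + 1) ∈ T) : x ∈ canopy T := by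
  have key : ∀ n, m ≤ n → pre x n ∈ T := by
    intro n hn
    induction n, hn using Nat.le_induction with
    | base => exact h0
    | succ n hn ih => exact h n hn ih
  intro n
  rcases le_total m n with hn | hn
  · exact key n hn
  · exact hT.prefix_closed _ h0 _ (pre_prefix x hn)

lemma dimH_follows_le {K : Set Seq} {q : ℕ} (hq : q < 2) (σ : List Bool → Bool) :
    dimH {x ∈ K | Follows q σ x} ≤ 1 / 2 := by
  apply dimH_forced_le_half hq
  intro x hx y hy n hn hxy
  rw [hx.2 n hn, hy.2 n hn, hxy]

/-! ### Nodes of local dimension greater than one half -/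

/-- The nodes of local dimension `> 1/2`. -/
def Star (T : Set (List Bool)) : Set (List Bool) := {v | 1 / 2 < dimH (canopy T ∩ cyl v)}

lemma star_sub {T : Set (List Bool)} {v : List Bool} (hv : v ∈ Star T) : v ∈ T := by
  have h1 : (canopy T ∩ cyl v).Nonempty := by
    rw [nonempty_iff_ne_empty]
    intro h0
    have hv : 1 / 2 < dimH (canopy T ∩ cyl v) := hv
    rw [h0, dimH_empty] at hv
    exact absurd hv (not_lt.2 zero_le)
  obtain ⟨x, hx, hxv⟩ := h1
  have hxv : pre x v.length = v := hxv
  rw [← hxv]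
  exact hx _

lemma star_prefix {T : Set (List Bool)} {v w : List Bool} (h : v <+: w) (hw : w ∈ Star T) :
    v ∈ Star T :=
  lt_of_lt_of_le hw (dimH_mono (inter_subset_inter_right _ (cyl_anti h)))

lemma star_child {T : Set (List Bool)} {v : List Bool} (hv : v ∈ Star T) :
    ∃ b, v ++ [b] ∈ Star T := by
  have hv : 1 / 2 < dimH (canopy T ∩ cyl v) := hv
  rw [cyl_append v, inter_union_distrib_left, dimH_union, lt_max_iff] at hv
  rcases hv with h | h
  · exact ⟨false, h⟩
  · exact ⟨true, h⟩

lemma star_branch {T : Set (List Bool)} {v : List Bool} (hv : v ∈ Star T) {q : ℕ}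
    (hq : q < 2) :
    ∃ w, v <+: w ∧ w ∈ Star T ∧ w.length % 2 = q ∧ ∀ b, w ++ [b] ∈ Star T := by
  by_contra hno
  push Not at hno
  set A : Set Seq := {x ∈ canopy T ∩ cyl v | ∀ n, pre x n ∈ Star T} with hA
  have hAd : dimH A ≤ 1 / 2 := by
    apply dimH_forced_le_half hq
    intro x hx y hy n hn hxy
    rcases lt_or_ge n v.length with hnv | hnv
    · have h1 : pre x v.length = pre y v.length := by
        have hx2 : pre x v.length = v := hx.1.2
        have hy2 : pre y v.length = v := hy.1.2
        rw [hx2, hy2]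
      rw [pre_eq_iff] at h1
      exact h1 n hnv
    · by_contra hne
      have hvx : v <+: pre x n := by
        have hx2 : pre x v.length = v := hx.1.2
        have := pre_prefix x hnv
        rwa [hx2] at this
      obtain ⟨b, hb⟩ := hno (pre x n) hvx (hx.2 n) (by rw [length_pre]; exact hn)
      have h1 : pre x n ++ [x n] ∈ Star T := by rw [← pre_succ]; exact hx.2 (n + 1)
      have h2 : pre x n ++ [y n] ∈ Star T := by rw [hxy, ← pre_succ]; exact hy.2 (n + 1)
      have h3 : b = x n ∨ b = y n := by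
        cases b <;> cases hx' : x n <;> cases hy' : y n <;> simp_all
      rcases h3 with h3 | h3
      · rw [h3] at hb; exact hb h1
      · rw [h3] at hb; exact hb h2
  have hcov : canopy T ∩ cyl v ⊆ A ∪ ⋃ u ∈ {u : List Bool | u ∉ Star T}, (canopy T ∩ cyl u) := by
    intro x hx
    by_cases h : ∀ n, pre x n ∈ Star T
    · exact Or.inl ⟨hx, h⟩
    · right
      push Not at h
      obtain ⟨n, hn⟩ := h
      simp only [mem_iUnion]
      exact ⟨pre x n, hn, hx.1, mem_cyl_pre x n⟩
  have hle : dimH (canopy T ∩ cyl v) ≤ 1 / 2 := by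
    refine (dimH_mono hcov).trans ?_
    rw [dimH_union, dimH_bUnion (Set.to_countable _)]
    refine max_le hAd (iSup₂_le fun u hu => ?_)
    exact not_lt.1 hu
  exact absurd hv (not_lt.2 hle)

lemma star_next {T : Set (List Bool)} {v : List Bool} (hv : v ∈ Star T) {q : ℕ} (hq : q < 2) :
    ∃ w, v <+: w ∧ v.length < w.length ∧ w ∈ Star T ∧ w.length % 2 = q ∧
      ∀ b, w ++ [b] ∈ Star T := by
  obtain ⟨b, hb⟩ := star_child hv
  obtain ⟨w, h1, h2, h3, h4⟩ := star_branch hb hq
  refine ⟨w, (List.prefix_append _ _).trans h1, ?_, h2, h3, h4⟩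
  have := h1.length_le
  simp at this
  omega

/-! ### The sparse subtree on which both players branch alternately -/

/-- `nx v q` is a proper extension of `v` of length `≡ q (mod 2)` at which the tree of nodes of
local dimension `> 1/2` branches. -/
structure Next (T : Set (List Bool)) (nx : List Bool → ℕ → List Bool) : Prop where
  root : [] ∈ Star T
  spec : ∀ v ∈ Star T, ∀ q < 2, v <+: nx v q ∧ v.length < (nx v q).length ∧ nx v q ∈ Star T ∧
    (nx v q).length % 2 = q ∧ ∀ b, nx v q ++ [b] ∈ Star T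

lemma exists_next {T : Set (List Bool)} (hd : 1 / 2 < dimH (canopy T)) :
    ∃ nx, Next T nx := by
  have : ∀ v : List Bool, ∀ q : ℕ, ∃ w, v ∈ Star T → q < 2 → (v <+: w ∧ v.length < w.length ∧
      w ∈ Star T ∧ w.length % 2 = q ∧ ∀ b, w ++ [b] ∈ Star T) := by
    intro v q
    by_cases h : v ∈ Star T ∧ q < 2
    · obtain ⟨w, hw⟩ := star_next h.1 h.2
      exact ⟨w, fun _ _ => hw⟩
    · exact ⟨[], fun h1 h2 => absurd ⟨h1, h2⟩ h⟩
  choose nx hnx using this
  refine ⟨nx, ?_, fun v hv q hq => hnx v q hv hq⟩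
  show 1 / 2 < dimH (canopy T ∩ cyl [])
  rw [cyl_nil, inter_univ]
  exact hd

variable {T : Set (List Bool)} {nx : List Bool → ℕ → List Bool}

/-- The designated branching nodes along the branch `y`. -/
def nd (nx : List Bool → ℕ → List Bool) (y : Seq) : ℕ → List Bool
  | 0 => nx [] 0
  | k + 1 => nx (nd nx y k ++ [y k]) ((k + 1) % 2)

/-- The branch of `T` with the choices `y` at the designated nodes. -/
def Phi (nx : List Bool → ℕ → List Bool) (y : Seq) : Seq :=
  fun n => (nd nx y (n + 1)).getD n false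

lemma nd_good (h : Next T nx) (y : Seq) (k : ℕ) :
    nd nx y k ∈ Star T ∧ (nd nx y k).length % 2 = k % 2 ∧ ∀ b, nd nx y k ++ [b] ∈ Star T := by
  induction k with
  | zero =>
    have := h.spec [] h.root 0 (by norm_num)
    exact ⟨this.2.2.1, this.2.2.2.1, this.2.2.2.2⟩
  | succ k ih =>
    have := h.spec _ (ih.2.2 (y k)) ((k + 1) % 2) (Nat.mod_lt _ (by norm_num))
    exact ⟨this.2.2.1, this.2.2.2.1, this.2.2.2.2⟩

lemma nd_step (h : Next T nx) (y : Seq) (k : ℕ) :
    nd nx y k ++ [y k] <+: nd nx y (k + 1) ∧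
      (nd nx y k).length + 2 ≤ (nd nx y (k + 1)).length := by
  have := h.spec _ ((nd_good h y k).2.2 (y k)) ((k + 1) % 2) (Nat.mod_lt _ (by norm_num))
  refine ⟨this.1, ?_⟩
  have h2 := this.2.1
  simp only [List.length_append, List.length_singleton] at h2
  exact h2

lemma nd_len (h : Next T nx) (y : Seq) (k : ℕ) : 2 * k ≤ (nd nx y k).length := by
  induction k with
  | zero => omega
  | succ k ih => have := (nd_step h y k).2; omega

lemma nd_congr {y y' : Seq} {k : ℕ} (hy : pre y k = pre y' k) : nd nx y k = nd nx y' k := by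
  induction k with
  | zero => rfl
  | succ k ih =>
    have h1 := ih (pre_eq_of_le (Nat.le_succ k) hy)
    have h2 : y k = y' k := by
      rw [pre_eq_iff] at hy
      exact hy k (Nat.lt_succ_self k)
    simp only [nd, h1, h2]

lemma nd_mono (h : Next T nx) (y : Seq) {k m : ℕ} (hkm : k ≤ m) : nd nx y k <+: nd nx y m := by
  induction m, hkm using Nat.le_induction with
  | base => exact List.prefix_rfl
  | succ m _ ih => exact ih.trans ((List.prefix_append _ _).trans (nd_step h y m).1)

lemma getD_of_prefix {l l' : List Bool} (h : l <+: l') {i : ℕ} (hi : i < l.length) (d : Bool) :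
    l.getD i d = l'.getD i d := by
  obtain ⟨r, rfl⟩ := h
  rw [List.getD_append _ _ _ _ hi]

lemma pre_Phi (h : Next T nx) (y : Seq) (k : ℕ) :
    pre (Phi nx y) (nd nx y k).length = nd nx y k := by
  apply List.ext_getElem (by simp)
  intro i h1 h2
  have h3 : (pre (Phi nx y) (nd nx y k).length)[i] = Phi nx y i := by simp [pre]
  rw [h3]
  have h4 : i < (nd nx y (i + 1)).length := by have := nd_len h y (i + 1); omega
  have h5 := getD_of_prefix (nd_mono h y (le_max_right k (i + 1))) h4 false
  have h6 := getD_of_prefix (nd_mono h y (le_max_left k (i + 1))) h2 false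
  show (nd nx y (i + 1)).getD i false = _
  rw [h5, ← h6]
  exact List.getD_eq_getElem _ _ h2

lemma Phi_at (h : Next T nx) (y : Seq) (k : ℕ) : Phi nx y (nd nx y k).length = y k := by
  have h1 := pre_eq_of_prefix (nd_step h y k).1 (pre_Phi h y (k + 1))
  rw [List.length_append, List.length_singleton, pre_succ] at h1
  have h2 := (List.append_inj' h1 rfl).2
  simpa using h2

lemma Phi_pre (h : Next T nx) {y y' : Seq} {k : ℕ} (hy : pre y k = pre y' k) :
    pre (Phi nx y) (2 * k) = pre (Phi nx y') (2 * k) := by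
  have h1 := pre_Phi h y k
  have h2 := pre_Phi h y' k
  rw [← nd_congr hy] at h2
  exact pre_eq_of_le (nd_len h y k) (h1.trans h2.symm)

lemma Phi_star (h : Next T nx) (y : Seq) (n : ℕ) : pre (Phi nx y) n ∈ Star T := by
  have h1 : n ≤ (nd nx y n).length := by have := nd_len h y n; omega
  have h2 := pre_prefix (Phi nx y) h1
  rw [pre_Phi h] at h2
  exact star_prefix h2 (nd_good h y n).1

lemma Phi_diff (h : Next T nx) {y y' : Seq} {n : ℕ}
    (h1 : pre (Phi nx y) n = pre (Phi nx y') n) (h2 : Phi nx y n ≠ Phi nx y' n) :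
    ∃ k, n = (nd nx y k).length := by
  classical
  have hne : ∃ k, y k ≠ y' k := by
    by_contra hno
    push Not at hno
    have : y = y' := funext hno
    rw [this] at h2
    exact h2 rfl
  set k := Nat.find hne with hk
  have hk1 : y k ≠ y' k := Nat.find_spec hne
  have hk2 : pre y k = pre y' k := by
    rw [pre_eq_iff]
    intro i hi
    by_contra hi2
    exact Nat.find_min hne hi hi2
  have hnd : nd nx y k = nd nx y' k := nd_congr hk2
  refine ⟨k, ?_⟩
  rcases lt_trichotomy n (nd nx y k).length with hlt | heq | hgt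
  · exfalso
    have h3 : pre (Phi nx y) (nd nx y k).length = pre (Phi nx y') (nd nx y k).length := by
      rw [pre_Phi h, hnd, pre_Phi h]
    rw [pre_eq_iff] at h3
    exact h2 (h3 n hlt)
  · exact heq
  · exfalso
    rw [pre_eq_iff] at h1
    have h3 := h1 _ hgt
    rw [Phi_at h] at h3
    rw [hnd, Phi_at h] at h3
    exact hk1 h3

lemma Phi_inj (h : Next T nx) : Function.Injective (Phi nx) := by
  intro y y' hyy
  by_contra hne
  obtain ⟨k, hk⟩ : ∃ k, y k ≠ y' k := by
    by_contra hno
    push Not at hno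
    exact hne (funext hno)
  -- first difference
  classical
  have hex : ∃ k, y k ≠ y' k := ⟨k, hk⟩
  set m := Nat.find hex
  have hm1 : y m ≠ y' m := Nat.find_spec hex
  have hm2 : pre y m = pre y' m := by
    rw [pre_eq_iff]
    intro i hi
    by_contra hi2
    exact Nat.find_min hex hi hi2
  have h1 := Phi_at h y m
  have h2 := Phi_at h y' m
  rw [← nd_congr hm2, ← hyy, h1] at h2
  exact hm1 h2

lemma range_pclosed (h : Next T nx) : PClosed (range (Phi nx)) := by
  have hc : Continuous (Phi nx) := by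
    rw [Metric.continuous_iff]
    intro b ε hε
    obtain ⟨k, hk⟩ := exists_pow_lt_of_lt_one hε (by norm_num : (1 / 2 : ℝ) < 1)
    refine ⟨(1 / 2) ^ k, by positivity, fun a ha => ?_⟩
    have h1 : pre a k = pre b k := pre_eq_iff_dist.2 ha.le
    have h2 := Phi_pre h h1
    rw [pre_eq_iff_dist] at h2
    refine lt_of_le_of_lt (h2.trans ?_) hk
    exact pow_le_pow_of_le_one (by norm_num) (by norm_num) (by omega)
  have hcomp : IsCompact (range (Phi nx)) := isCompact_range hc
  intro x hx
  have hcl : x ∈ closure (range (Phi nx)) := by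
    rw [Metric.mem_closure_iff]
    intro ε hε
    obtain ⟨k, hk⟩ := exists_pow_lt_of_lt_one hε (by norm_num : (1 / 2 : ℝ) < 1)
    obtain ⟨z, hz, hzx⟩ := hx k
    refine ⟨z, hz, lt_of_le_of_lt ?_ hk⟩
    exact pre_eq_iff_dist.1 hzx.symm
  rwa [hcomp.isClosed.closure_eq] at hcl

lemma dimH_image_Phi_le (h : Next T nx) (B : Set Seq) : dimH (Phi nx '' B) ≤ 1 / 2 :=
  dimH_image_le_half fun _ _ _ _ _ hk => Phi_pre h hk

/-- The nodes of the sparse subtree. -/
def Tp (nx : List Bool → ℕ → List Bool) : Set (List Bool) :=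
  {v | ∃ y, pre (Phi nx y) v.length = v}

lemma mem_Tp_pre (x : Seq) (n : ℕ) :
    pre x n ∈ Tp nx ↔ ∃ y, pre (Phi nx y) n = pre x n := by
  simp [Tp]

lemma Tp_prefix {v w : List Bool} (hvw : v <+: w) (hw : w ∈ Tp nx) : v ∈ Tp nx := by
  obtain ⟨y, hy⟩ := hw
  exact ⟨y, pre_eq_of_prefix hvw hy⟩

lemma canopy_Tp (h : Next T nx) {x : Seq} (hx : ∀ n, pre x n ∈ Tp nx) : x ∈ range (Phi nx) := by
  apply range_pclosed h
  intro n
  obtain ⟨y, hy⟩ := (mem_Tp_pre x n).1 (hx n)
  exact ⟨Phi nx y, ⟨y, rfl⟩, hy⟩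

/-! ### Punishing plays -/

/-- The plays in which the player of parity `q` stays in `Tp` as long as the play is there and
follows `ch` once the play has left `Tp`. -/
def Cor (T : Set (List Bool)) (nx : List Bool → ℕ → List Bool) (ch : List Bool → Bool) (q : ℕ) :
    Set Seq :=
  {x ∈ canopy T | ∀ n, n % 2 = q →
    ((pre x n ∈ Tp nx → pre x (n + 1) ∈ Tp nx) ∧ (pre x n ∉ Tp nx → x n = ch (pre x n)))}

lemma Cor_pclosed (ch : List Bool → Bool) (q : ℕ) : PClosed (Cor T nx ch q) := by
  intro x hx
  refine ⟨canopy_pclosed T x fun n => ?_, fun n hn => ?_⟩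
  · obtain ⟨z, hz, hzx⟩ := hx n
    exact ⟨z, hz.1, hzx⟩
  · obtain ⟨z, hz, hzx⟩ := hx (n + 1)
    have h1 : pre z n = pre x n := pre_eq_of_le (Nat.le_succ n) hzx
    have h2 : z n = x n := by
      rw [pre_eq_iff] at hzx
      exact hzx n (Nat.lt_succ_self n)
    have := hz.2 n hn
    rwa [hzx, h1, h2] at this

lemma Phi_mem_Cor (h : Next T nx) (ch : List Bool → Bool) (q : ℕ) (y : Seq) :
    Phi nx y ∈ Cor T nx ch q := by
  refine ⟨fun n => star_sub (Phi_star h y n), fun n _ => ⟨fun _ => ?_, fun hno => ?_⟩⟩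
  · exact (mem_Tp_pre _ _).2 ⟨y, rfl⟩
  · exact absurd ((mem_Tp_pre _ _).2 ⟨y, rfl⟩) hno

lemma Cor_inter (h : Next T nx) {ch : List Bool → Bool} {x : Seq} (h0 : x ∈ Cor T nx ch 0)
    (h1 : x ∈ Cor T nx ch 1) : x ∈ range (Phi nx) := by
  apply canopy_Tp h
  intro n
  induction n with
  | zero => exact (mem_Tp_pre _ _).2 ⟨x, by simp⟩
  | succ n ih =>
    rcases Nat.mod_two_eq_zero_or_one n with hn | hn
    · exact (h0.2 n hn).1 ih
    · exact (h1.2 n hn).1 ih

lemma dimH_Cor_le (h : Next T nx) (ch : List Bool → Bool) {q : ℕ} (hq : q < 2) :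
    dimH (Cor T nx ch q) ≤ 1 / 2 := by
  have hcov : Cor T nx ch q ⊆ (Phi nx '' univ) ∪
      ⋃ u ∈ {u : List Bool | u ∉ Tp nx}, {x ∈ Cor T nx ch q | pre x u.length = u} := by
    intro x hx
    by_cases hall : ∀ n, pre x n ∈ Tp nx
    · left
      rw [image_univ]
      exact canopy_Tp h hall
    · right
      push Not at hall
      obtain ⟨n, hn⟩ := hall
      simp only [mem_iUnion]
      exact ⟨pre x n, hn, hx, by simp⟩
  refine (dimH_mono hcov).trans ?_
  rw [dimH_union, dimH_bUnion (Set.to_countable _)]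
  refine max_le (dimH_image_Phi_le h _) (iSup₂_le fun u hu => ?_)
  apply dimH_forced_le_half hq
  rintro x ⟨hx, hxu⟩ y ⟨hy, hyu⟩ n hn hxy
  rcases lt_or_ge n u.length with hnu | hnu
  · have h1 : pre x u.length = pre y u.length := by rw [hxu, hyu]
    rw [pre_eq_iff] at h1
    exact h1 n hnu
  · have hout : ∀ z : Seq, pre z u.length = u → pre z n ∉ Tp nx := by
      intro z hz hmem
      apply hu
      apply Tp_prefix _ hmem
      have := pre_prefix z hnu
      rwa [hz] at this
    rw [(hx.2 n hn).2 (hout x hxu), (hy.2 n hn).2 (hout y hyu), hxy]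

lemma nd_of_pre (y : Seq) (n : ℕ) :
    nd nx (fun i => (pre y n).getD i false) (pre y n).length = nd nx y n := by
  rw [length_pre]
  apply nd_congr
  rw [pre_eq_iff]
  intro i hi
  rw [List.getD_eq_getElem _ _ (by simpa using hi)]
  simp [pre]

/-- If punishing plays cannot hurt the strategy `σ`, then continuum many branches of the sparse
subtree are consistent with it. -/
lemma many_plays (hT : IsSubtree T) (h : Next T nx) {ch : List Bool → Bool}
    (hch : ∀ s ∈ T, s ++ [ch s] ∈ T) {q : ℕ} (hq : q < 2) {σ : List Bool → Bool}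
    (hσ : Legal T q σ)
    (hpun : ∀ x ∈ Cor T nx ch (1 - q), Follows q σ x → x ∈ range (Phi nx)) :
    𝔠 ≤ #{y : Seq | Follows q σ (Phi nx y)} := by
  classical
  have key : ∀ t : Seq, ∃ y : Seq, Follows q σ (Phi nx y) ∧ ∀ k, y (2 * k + (1 - q)) = t k := by
    intro t
    obtain ⟨y, hy⟩ := exists_path fun l =>
      if l.length % 2 = q then σ (nd nx (fun i => l.getD i false) l.length)
      else t (l.length / 2)
    have hy' : ∀ n, y n = if n % 2 = q then σ (nd nx y n) else t (n / 2) := by
      intro n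
      have := hy n
      rw [nd_of_pre, length_pre] at this
      exact this
    refine ⟨y, ?_, fun k => ?_⟩
    · by_contra hno
      have hex : ∃ n, n % 2 = q ∧ Phi nx y n ≠ σ (pre (Phi nx y) n) := by
        unfold Follows at hno
        push Not at hno
        exact hno
      set n := Nat.find hex with hn
      obtain ⟨hnq, hne⟩ : n % 2 = q ∧ Phi nx y n ≠ σ (pre (Phi nx y) n) := Nat.find_spec hex
      have hmin : ∀ m < n, m % 2 = q → Phi nx y m = σ (pre (Phi nx y) m) := by
        intro m hm hmq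
        by_contra hm2
        exact Nat.find_min hex hm ⟨hmq, hm2⟩
      set x : Seq := Phi nx y with hx
      -- the deviation leaves the sparse subtree
      have hout : pre x n ++ [σ (pre x n)] ∉ Tp nx := by
        rintro ⟨y', hy1⟩
        rw [List.length_append, List.length_singleton, length_pre, pre_succ] at hy1
        have h1 := List.append_inj' hy1 rfl
        have h2 : Phi nx y' n = σ (pre x n) := by simpa using h1.2
        obtain ⟨k, hk⟩ := Phi_diff h (y := y) (y' := y') (n := n) h1.1.symm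
          (by rw [h2]; exact hne)
        have h3 : pre x n = nd nx y k := by rw [hk]; exact pre_Phi h y k
        have h4 : k % 2 = q := by
          have := (nd_good h y k).2.1
          rw [← hk, hnq] at this
          exact this.symm
        have h5 : x n = y k := by rw [hk]; exact Phi_at h y k
        apply hne
        rw [h5, hy' k, if_pos h4, h3]
      -- the punishing play
      obtain ⟨x', hx'⟩ := exists_path fun l =>
        if l.length < n then x l.length else if l.length % 2 = q then σ l else ch l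
      have hx'1 : ∀ k < n, x' k = x k := by
        intro k hk
        rw [hx' k, length_pre, if_pos hk]
      have hx'2 : ∀ k, n ≤ k → x' k = if k % 2 = q then σ (pre x' k) else ch (pre x' k) := by
        intro k hk
        have := hx' k
        rw [length_pre, if_neg (not_lt.2 hk)] at this
        exact this
      have hpre : ∀ k ≤ n, pre x' k = pre x k := by
        intro k hk
        rw [pre_eq_iff]
        intro i hi
        exact hx'1 i (by omega)
      have hxn : pre x' (n + 1) = pre x n ++ [σ (pre x n)] := by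
        rw [pre_succ, hpre n le_rfl, hx'2 n le_rfl, if_pos hnq, hpre n le_rfl]
      have houtk : ∀ k, n < k → pre x' k ∉ Tp nx := by
        intro k hk hmem
        apply hout
        rw [← hxn]
        exact Tp_prefix (pre_prefix x' (by omega)) hmem
      have hin : ∀ k ≤ n, pre x' k ∈ Tp nx := by
        intro k hk
        rw [hpre k hk]
        exact (mem_Tp_pre x k).2 ⟨y, rfl⟩
      have hcan : x' ∈ canopy T := by
        apply canopy_of_step hT (m := n)
        · rw [hpre n le_rfl]; exact star_sub (Phi_star h y n)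
        · intro k hk hkT
          rw [pre_succ, hx'2 k hk]
          by_cases hkq : k % 2 = q
          · rw [if_pos hkq]; exact hσ _ hkT (by rw [length_pre]; exact hkq)
          · rw [if_neg hkq]; exact hch _ hkT
      have hfol : Follows q σ x' := by
        intro k hkq
        rcases lt_or_ge k n with hk | hk
        · rw [hx'1 k hk, hpre k hk.le]; exact hmin k hk hkq
        · rw [hx'2 k hk, if_pos hkq]
      have hcor : x' ∈ Cor T nx ch (1 - q) := by
        refine ⟨hcan, fun k hk => ?_⟩
        rcases lt_or_ge k n with hkn | hkn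
        · exact ⟨fun _ => hin (k + 1) (by omega), fun hno => absurd (hin k hkn.le) hno⟩
        · have hkn' : n < k := by
            rcases eq_or_lt_of_le hkn with h' | h'
            · exfalso; omega
            · exact h'
          refine ⟨fun hmem => absurd hmem (houtk k hkn'), fun _ => ?_⟩
          rw [hx'2 k hkn, if_neg (by omega)]
      obtain ⟨y'', hy''⟩ := hpun x' hcor hfol
      apply houtk (n + 1) (Nat.lt_succ_self n)
      rw [← hy'']
      exact (mem_Tp_pre _ _).2 ⟨y'', rfl⟩
    · rw [hy', if_neg (by omega)]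
      congr 1
      omega
  choose F hF1 hF2 using key
  have hinj : Function.Injective fun t : Seq => (⟨F t, hF1 t⟩ : {y : Seq | Follows q σ (Phi nx y)}) := by
    intro t t' htt
    have h1 : F t = F t' := congrArg Subtype.val htt
    funext k
    rw [← hF2 t k, ← hF2 t' k, h1]
  have hle := Cardinal.mk_le_of_injective hinj
  have hc : #Seq = 𝔠 := by simp
  rwa [hc] at hle

/-- **The statement of Q1 is true.** -/
theorem result (T : Set (List Bool)) (hT : IsSubtree T) (hd : 1 / 2 < dimH (canopy T))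
    (δ : ℝ≥0∞) (h1 : 1 / 2 ≤ δ) (h2 : δ ≤ dimH (canopy T)) :
    ∃ W WI WII : Set Seq, W ⊆ canopy T ∧ WI ⊆ canopy T ∧ WII ⊆ canopy T ∧
      dimH W = δ ∧ dimH WI = δ ∧ dimH WII = δ ∧
      (¬ WinsI T W ∧ ¬ WinsII T W) ∧ WinsI T WI ∧ WinsII T WII := by
  obtain ⟨ch, hch⟩ := exists_child hT
  obtain ⟨nx, h⟩ := exists_next hd
  have hK := canopy_pclosed T
  -- the Bernstein set
  let ι : Type := {p : Fin 2 × (List Bool → Bool) //
    𝔠 ≤ #{y : Seq | Follows p.1 p.2 (Phi nx y)}}
  have hι : #ι ≤ 𝔠 := by
    refine (Cardinal.mk_subtype_le _).trans ?_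
    rw [Cardinal.mk_prod]
    simp
  obtain ⟨B, hB⟩ := exists_bernstein (κ := 𝔠) aleph0_le_continuum
    (fun p : ι => {y : Seq | Follows p.1.1 p.1.2 (Phi nx y)}) hι (fun p => p.2)
  -- the non-determined set
  obtain ⟨E, hE, hEd⟩ := exists_exact_diff hK (Cor_pclosed (T := T) (nx := nx) ch 1)
    (dimH_Cor_le h ch (by norm_num)) hd h1 h2
  set W : Set Seq := (Phi nx '' B) ∪ (Cor T nx ch 0 \ range (Phi nx)) ∪ E with hW
  have hWK : W ⊆ canopy T := by
    rintro x ((⟨y, _, rfl⟩ | hx) | hx)
    · exact (Phi_mem_Cor h ch 0 y).1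
    · exact hx.1.1
    · exact (hE hx).1
  have hWd : dimH W = δ := by
    rw [hW, dimH_union, dimH_union, hEd]
    apply max_eq_right
    refine (max_le (dimH_image_Phi_le h B) ?_).trans h1
    exact (dimH_mono sdiff_subset).trans (dimH_Cor_le h ch (by norm_num))
  have hWI : ¬ WinsI T W := by
    rintro ⟨σ, hσ, hwin⟩
    have hpun : ∀ x ∈ Cor T nx ch (1 - 0), Follows 0 σ x → x ∈ range (Phi nx) := by
      intro x hx hfol
      rcases hwin x hx.1 hfol with (⟨y, _, rfl⟩ | hx') | hx'
      · exact ⟨y, rfl⟩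
      · exact Cor_inter h hx'.1 hx
      · exact absurd hx (hE hx').2
    have hc := many_plays hT h hch (by norm_num : 0 < 2) hσ hpun
    obtain ⟨-, y, hy, hyB⟩ := hB ⟨(0, σ), hc⟩
    have hy : Follows 0 σ (Phi nx y) := hy
    have hcor := Phi_mem_Cor h ch 1 y
    rcases hwin (Phi nx y) hcor.1 hy with (⟨y', hy', hyy⟩ | hx') | hx'
    · rw [Phi_inj h hyy] at hy'
      exact hyB hy'
    · exact hx'.2 ⟨y, rfl⟩
    · exact (hE hx').2 hcor
  have hWII : ¬ WinsII T W := by
    rintro ⟨τ, hτ, hwin⟩
    have hpun : ∀ x ∈ Cor T nx ch (1 - 1), Follows 1 τ x → x ∈ range (Phi nx) := by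
      intro x hx hfol
      by_contra hno
      exact hwin x hx.1 hfol (Or.inl (Or.inr ⟨hx, hno⟩))
    have hc := many_plays hT h hch (by norm_num : 1 < 2) hτ hpun
    obtain ⟨⟨y, hy, hyB⟩, -⟩ := hB ⟨(1, τ), hc⟩
    have hy : Follows 1 τ (Phi nx y) := hy
    exact hwin (Phi nx y) (Phi_mem_Cor h ch 0 y).1 hy (Or.inl (Or.inl ⟨y, hyB, rfl⟩))
  -- a set won by Player I
  obtain ⟨E1, hE1, hE1d⟩ := exists_exact_diff (Z := ∅) hK (fun x hx => by
    obtain ⟨z, hz, _⟩ := hx 0
    exact hz) (by rw [dimH_empty]; exact zero_le) hd h1 h2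
  have hF : ∀ q < 2, dimH {x ∈ canopy T | Follows q ch x} ≤ 1 / 2 := fun q hq =>
    dimH_follows_le hq ch
  -- a set won by Player II
  have hZc : PClosed {x ∈ canopy T | Follows 1 ch x} := by
    intro x hx
    refine ⟨hK x fun n => ?_, fun n hn => ?_⟩
    · obtain ⟨z, hz, hzx⟩ := hx n
      exact ⟨z, hz.1, hzx⟩
    · obtain ⟨z, hz, hzx⟩ := hx (n + 1)
      have e1 : pre z n = pre x n := pre_eq_of_le (Nat.le_succ n) hzx
      have e2 : z n = x n := by
        rw [pre_eq_iff] at hzx
        exact hzx n (Nat.lt_succ_self n)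
      rw [← e2, ← e1]
      exact hz.2 n hn
  obtain ⟨E2, hE2, hE2d⟩ := exists_exact_diff hK hZc (hF 1 (by norm_num)) hd h1 h2
  refine ⟨W, E1 ∪ {x ∈ canopy T | Follows 0 ch x}, E2, hWK, ?_, fun x hx => (hE2 hx).1, hWd,
    ?_, hE2d, ⟨hWI, hWII⟩, ?_, ?_⟩
  · rintro x (hx | hx)
    · exact (hE1 hx).1
    · exact hx.1
  · rw [dimH_union, hE1d]
    exact max_eq_left ((hF 0 (by norm_num)).trans h1)
  · exact ⟨ch, fun s hs _ => hch s hs, fun x hx hfol => Or.inr ⟨hx, hfol⟩⟩
  · exact ⟨ch, fun s hs _ => hch s hs, fun x hx hfol hxE => (hE2 hxE).2 ⟨hx, hfol⟩⟩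

end Pool.Agent.Results.MP_decccb_lc.ExactDimension
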